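import Mathlib

set_option autoImplicit false

namespace Pool.Agent.Results.MP_6460d1_co.UnboundedDegrees

open Finset

/-- `G` is a split graph: the vertex set is a disjoint union of a clique and a stable set. -/
def IsSplit {V : Type} (G : SimpleGraph V) : Prop :=
  ∃ C : Set V, (∀ u ∈ C, ∀ v ∈ C, u ≠ v → G.Adj u v) ∧ ∀ u ∉ C, ∀ v ∉ C, ¬ G.Adj u v

/-- The set of (real) eigenvalues of the adjacency matrix of `G`. -/
def eigs {V : Type} [Fintype V] (G : SimpleGraph V) [DecidableRel G.Adj] : Set ℝ :=
  {θ | ∃ x : V → ℝ, x ≠ 0 ∧ (G.adjMatrix ℝ).mulVec x = θ • x}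

/-- `G` is a `3`-extremal split graph: a connected split graph of diameter exactly `3` whose
adjacency matrix has exactly `4` distinct eigenvalues. -/
structure IsThreeExtremalSplit {V : Type} [Fintype V] (G : SimpleGraph V)
    [DecidableRel G.Adj] : Prop where
  split : IsSplit G
  conn : G.Connected
  dist_le : ∀ u v, G.dist u v ≤ 3
  dist_eq : ∃ u v, G.dist u v = 3
  eig : (eigs G).ncard = 4

/-- The split graph of an incidence relation. -/
def spl {C S : Type} (I : C → S → Prop) : SimpleGraph (C ⊕ S) where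
  Adj u v := match u, v with
    | .inl a, .inl b => a ≠ b
    | .inl a, .inr s => I a s
    | .inr s, .inl a => I a s
    | .inr _, .inr _ => False
  symm := ⟨by
    rintro (a | s) (b | t) h
    · exact Ne.symm h
    · exact h
    · exact h
    · exact h⟩
  loopless := ⟨by
    rintro (a | s) h
    · exact h rfl
    · exact h⟩

section
variable {C S : Type} [Fintype C] [Fintype S]

open Classical in
theorem mv_inl (I : C → S → Prop) (x : C → ℝ) (y : S → ℝ) (a : C) :
    ((spl I).adjMatrix ℝ).mulVec (Sum.elim x y) (.inl a) =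
      (∑ b, x b) - x a + ∑ s, (if I a s then 1 else 0) * y s := by
  rw [Matrix.mulVec, dotProduct, Fintype.sum_sum_type]
  simp only [Sum.elim_inl, Sum.elim_inr, SimpleGraph.adjMatrix_apply]
  congr 1
  have : ∀ b, (if (spl I).Adj (.inl a) (.inl b) then (1 : ℝ) else 0) * x b =
      x b - (if b = a then x b else 0) := by
    intro b
    by_cases h : b = a
    · subst h
      have : ¬ (spl I).Adj (.inl b) (.inl b) := fun h => h rfl
      simp
    · have h2 : (spl I).Adj (.inl a) (.inl b) := fun h' => h h'.symm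
      rw [if_pos h2, if_neg h]; ring
  rw [Finset.sum_congr rfl fun b _ => this b, Finset.sum_sub_distrib, Finset.sum_ite_eq']
  simp

open Classical in
theorem mv_inr (I : C → S → Prop) (x : C → ℝ) (y : S → ℝ) (s : S) :
    ((spl I).adjMatrix ℝ).mulVec (Sum.elim x y) (.inr s) =
      ∑ a, (if I a s then 1 else 0) * x a := by
  rw [Matrix.mulVec, dotProduct, Fintype.sum_sum_type]
  simp only [Sum.elim_inl, Sum.elim_inr, SimpleGraph.adjMatrix_apply]
  have : ∀ t, (if (spl I).Adj (.inr s) (.inr t) then (1 : ℝ) else 0) * y t = 0 := by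
    intro t
    have : ¬ (spl I).Adj (.inr s) (.inr t) := fun h => h
    rw [if_neg this, zero_mul]
  rw [Finset.sum_congr rfl fun t _ => this t, Finset.sum_const_zero, add_zero]
  rfl

open Classical in
theorem gram (I : C → S → Prop) (l : ℝ)
    (hI : ∀ a b, ∑ s, (if I a s then (1 : ℝ) else 0) * (if I b s then 1 else 0) =
      if a = b then l ^ 2 else l) (x : C → ℝ) (a : C) :
    ∑ s, (if I a s then (1 : ℝ) else 0) * ∑ b, (if I b s then 1 else 0) * x b =
      l * (∑ b, x b) + (l ^ 2 - l) * x a := by
  have h1 : ∑ s, (if I a s then (1 : ℝ) else 0) * ∑ b, (if I b s then 1 else 0) * x b =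
      ∑ b, (∑ s, (if I a s then (1 : ℝ) else 0) * (if I b s then 1 else 0)) * x b := by
    simp_rw [Finset.mul_sum, Finset.sum_mul]
    rw [Finset.sum_comm]
    exact Finset.sum_congr rfl fun b _ => Finset.sum_congr rfl fun s _ => by ring
  rw [h1]
  have h2 : ∀ b, (∑ s, (if I a s then (1 : ℝ) else 0) * (if I b s then 1 else 0)) * x b =
      l * x b + (if b = a then (l ^ 2 - l) * x b else 0) := by
    intro b
    rw [hI a b]
    by_cases h : a = b
    · subst h; rw [if_pos rfl, if_pos rfl]; ring
    · rw [if_neg h, if_neg (Ne.symm h)]; ring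
  rw [Finset.sum_congr rfl fun b _ => h2 b, Finset.sum_add_distrib, ← Finset.mul_sum,
    Finset.sum_ite_eq']
  simp

open Classical in
/-- The eigenvalues. -/
theorem eigs_spl (I : C → S → Prop) (l : ℝ) (hl : 2 ≤ l)
    (hI : ∀ a b, ∑ s, (if I a s then (1 : ℝ) else 0) * (if I b s then 1 else 0) =
      if a = b then l ^ 2 else l)
    (hC : ∃ a b : C, a ≠ b) (hS : ∃ s t : S, s ≠ t ∧ ∀ a, I a s ↔ I a t) :
    eigs (spl I) = {0, -l, l - 1, (Fintype.card C : ℝ) + l - 1} := by
  obtain ⟨a₀, b₀, hab⟩ := hC
  obtain ⟨s₀, t₀, hst, hst'⟩ := hS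
  have hcardpos : (0 : ℝ) ≤ Fintype.card C := Nat.cast_nonneg _
  -- construction of eigenvectors for nonzero θ
  have build : ∀ (θ : ℝ) (x : C → ℝ), θ ≠ 0 → x ≠ 0 →
      (∀ a, (θ + l) * ((θ - l + 1) * x a - ∑ b, x b) = 0) → θ ∈ eigs (spl I) := by
    intro θ x hθ hx h
    refine ⟨Sum.elim x (fun s => θ⁻¹ * ∑ b, (if I b s then 1 else 0) * x b), ?_, ?_⟩
    · intro h0
      apply hx
      funext a
      exact congrFun h0 (.inl a)
    · funext u
      rcases u with a | s
      · rw [mv_inl, Pi.smul_apply, Sum.elim_inl, smul_eq_mul]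
        have h1 : ∑ s, (if I a s then (1 : ℝ) else 0) *
            (θ⁻¹ * ∑ b, (if I b s then 1 else 0) * x b) =
            θ⁻¹ * (l * (∑ b, x b) + (l ^ 2 - l) * x a) := by
          rw [← gram I l hI x a, Finset.mul_sum]
          exact Finset.sum_congr rfl fun s _ => by ring
        rw [h1]
        have h2 := h a
        field_simp
        nlinarith [h2]
      · rw [mv_inr, Pi.smul_apply, Sum.elim_inr, smul_eq_mul, ← mul_assoc,
          mul_inv_cancel₀ hθ, one_mul]
  apply Set.eq_of_subset_of_subset
  · rintro θ ⟨z, hz, hAz⟩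
    by_cases hθ : θ = 0
    · left; exact hθ
    right
    set x : C → ℝ := fun a => z (.inl a) with hx
    set y : S → ℝ := fun s => z (.inr s) with hy
    have hzxy : z = Sum.elim x y := by
      funext u; rcases u with a | s <;> rfl
    rw [hzxy] at hAz hz
    have hys : ∀ s, y s = θ⁻¹ * ∑ b, (if I b s then 1 else 0) * x b := by
      intro s
      have := congrFun hAz (.inr s)
      rw [mv_inr, Pi.smul_apply, Sum.elim_inr, smul_eq_mul] at this
      rw [this, ← mul_assoc, inv_mul_cancel₀ hθ, one_mul]
    have hxa : ∀ a, (θ + l) * ((θ - l + 1) * x a - ∑ b, x b) = 0 := by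
      intro a
      have h0 := congrFun hAz (.inl a)
      rw [mv_inl, Pi.smul_apply, Sum.elim_inl, smul_eq_mul] at h0
      have h1 : ∑ s, (if I a s then (1 : ℝ) else 0) * y s =
            θ⁻¹ * (l * (∑ b, x b) + (l ^ 2 - l) * x a) := by
        rw [← gram I l hI x a, Finset.mul_sum]
        exact Finset.sum_congr rfl fun s _ => by rw [hys s]; ring
      rw [h1] at h0
      have h2 : θ * ((∑ b, x b) - x a) + (l * (∑ b, x b) + (l ^ 2 - l) * x a) =
          θ * (θ * x a) := by
        rw [← h0]; field_simp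
      nlinarith [h2]
    by_cases h1 : θ + l = 0
    · left; exact eq_neg_of_add_eq_zero_left h1
    right
    have h2 : ∀ a, (θ - l + 1) * x a = ∑ b, x b := fun a =>
      sub_eq_zero.1 ((mul_eq_zero.1 (hxa a)).resolve_left h1)
    have h3 : (θ - l + 1) * ∑ b, x b = Fintype.card C * ∑ b, x b := by
      rw [Finset.mul_sum, Finset.sum_congr rfl fun a _ => h2 a, Finset.sum_const,
        Finset.card_univ, nsmul_eq_mul]
    by_cases h4 : ∑ b, x b = 0
    · left
      by_contra h5
      have h6 : ∀ a, x a = 0 := by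
        intro a
        have := h2 a
        rw [h4] at this
        rcases mul_eq_zero.1 this with h | h
        · exact absurd (show θ = l - 1 by linarith) h5
        · exact h
      apply hz
      funext u
      rcases u with a | s
      · exact h6 a
      · change y s = 0
        rw [hys s]
        simp [h6]
    · right
      have := mul_right_cancel₀ h4 h3
      change θ = _
      linarith
  · intro θ hθ
    rcases hθ with rfl | rfl | rfl | hθ
    · -- eigenvalue 0
      refine ⟨Sum.elim (fun _ => 0) (fun s => (if s = s₀ then 1 else 0) - (if s = t₀ then 1 else 0)),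
        ?_, ?_⟩
      · intro h0
        have := congrFun h0 (.inr s₀)
        simp [hst] at this
      · funext u
        rcases u with a | s
        · rw [mv_inl]
          simp only [Finset.sum_const_zero, sub_zero, zero_add, zero_smul, Pi.zero_apply]
          have : ∀ s, (if I a s then (1 : ℝ) else 0) *
              ((if s = s₀ then 1 else 0) - (if s = t₀ then 1 else 0)) =
              (if s = s₀ then (if I a s then 1 else 0) else 0) -
              (if s = t₀ then (if I a s then 1 else 0) else 0) := by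
            intro s; split_ifs <;> simp
          rw [Finset.sum_congr rfl fun s _ => this s, Finset.sum_sub_distrib,
            Finset.sum_ite_eq', Finset.sum_ite_eq']
          simp [hst' a]
        · rw [mv_inr]; simp
    · refine build (-l) (fun a => if a = a₀ then 1 else 0) (by linarith) ?_ ?_
      · intro h0
        have := congrFun h0 a₀
        simp at this
      · intro a; ring
    · refine build (l - 1) (fun a => (if a = a₀ then 1 else 0) - (if a = b₀ then 1 else 0))
        (by linarith) ?_ ?_
      · intro h0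
        have := congrFun h0 a₀
        simp [hab] at this
      · intro a
        rw [Finset.sum_sub_distrib, Finset.sum_ite_eq', Finset.sum_ite_eq']
        simp
    · have hθ' : θ = (Fintype.card C : ℝ) + l - 1 := hθ
      refine build θ (fun _ => 1) (by rw [hθ']; linarith) ?_ ?_
      · intro h0
        have := congrFun h0 a₀
        simp at this
      · intro a
        rw [hθ', Finset.sum_const, Finset.card_univ, nsmul_eq_mul]
        ring

/-- Distances. -/
theorem spl_conn (I : C → S → Prop) (hne : ∀ s, ∃ a, I a s) (hC : Nonempty C) :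
    (spl I).Connected ∧ ∀ u v, (spl I).dist u v ≤ 3 := by
  have adj_inl : ∀ a b : C, a ≠ b → (spl I).Adj (.inl a) (.inl b) := fun a b h => h
  have reach_inl : ∀ a b : C, (spl I).Reachable (.inl a) (.inl b) := by
    intro a b
    by_cases h : a = b
    · rw [h]
    · exact (adj_inl a b h).reachable
  have reach : ∀ (u : C ⊕ S) (b : C), (spl I).Reachable u (.inl b) := by
    rintro (a | s) b
    · exact reach_inl a b
    · obtain ⟨a, ha⟩ := hne s
      have h1 : (spl I).Adj (.inr s) (.inl a) := ha
      exact h1.reachable.trans (reach_inl a b)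
  obtain ⟨c₀⟩ := hC
  have hconn : (spl I).Connected := by
    have : Nonempty (C ⊕ S) := ⟨.inl c₀⟩
    refine ⟨fun u v => (reach u c₀).trans (reach v c₀).symm⟩
  refine ⟨hconn, ?_⟩
  have d1 : ∀ a b : C, (spl I).dist (.inl a) (.inl b) ≤ 1 := by
    intro a b
    by_cases h : a = b
    · rw [h, SimpleGraph.dist_self]; omega
    · exact (SimpleGraph.dist_eq_one_iff_adj.2 (adj_inl a b h)).le
  have d2 : ∀ (s : S) (b : C), (spl I).dist (.inr s) (.inl b) ≤ 2 := by
    intro s b
    obtain ⟨a, ha⟩ := hne s
    have h1 : (spl I).Adj (.inr s) (.inl a) := ha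
    have h2 := hconn.dist_triangle (u := .inr s) (v := .inl a) (w := .inl b)
    have h3 := SimpleGraph.dist_eq_one_iff_adj.2 h1
    have h4 := d1 a b
    omega
  rintro (a | s) (b | t)
  · have := d1 a b; omega
  · have := d2 t a
    rw [SimpleGraph.dist_comm]; omega
  · have := d2 s b; omega
  · obtain ⟨a, ha⟩ := hne t
    have h1 : (spl I).Adj (.inl a) (.inr t) := ha
    have h2 := hconn.dist_triangle (u := .inr s) (v := .inl a) (w := .inr t)
    have h3 := SimpleGraph.dist_eq_one_iff_adj.2 h1
    have h4 := d2 s a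
    omega

theorem spl_dist3 (I : C → S → Prop) (hne : ∀ s, ∃ a, I a s) (hC : Nonempty C)
    (s t : S) (hst : s ≠ t) (hd : ∀ a, I a s → ¬ I a t) :
    (spl I).dist (.inr s) (.inr t) = 3 := by
  obtain ⟨hconn, hle⟩ := spl_conn I hne hC
  refine le_antisymm (hle _ _) ?_
  obtain ⟨p, hp⟩ := hconn.exists_walk_length_eq_dist (.inr s) (.inr t)
  rw [← hp]
  cases p with
  | nil => exact absurd rfl hst
  | cons h q =>
    cases q with
    | nil => exact absurd h (fun h => h)
    | cons h' q' =>
      cases q' with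
      | nil =>
        rename_i v
        rcases v with a | r
        · exact absurd h' (hd a h)
        · exact absurd h (fun h => h)
      | cons h'' q'' =>
        simp only [SimpleGraph.Walk.length_cons]
        omega

end

/-- The stable side: all nonempty subsets of `Fin n`, and `N` copies of each singleton. -/
abbrev St (n N : ℕ) : Type := {s : Finset (Fin n) // s.Nonempty} ⊕ (Fin N × Fin n)

/-- The incidence relation. -/
def Inc (n N : ℕ) (a : Fin n) : St n N → Prop
  | .inl s => a ∈ s.1
  | .inr p => a = p.2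

open Classical in
theorem inc_gram (n : ℕ) (hn : 4 ≤ n) (N : ℕ) (hN : N + 2 * 2 ^ (n - 2) = (2 ^ (n - 2)) ^ 2)
    (a b : Fin n) :
    ∑ s : St n N, (if Inc n N a s then (1 : ℝ) else 0) * (if Inc n N b s then 1 else 0) =
      if a = b then ((2 : ℝ) ^ (n - 2)) ^ 2 else (2 : ℝ) ^ (n - 2) := by
  rw [Fintype.sum_sum_type]
  have h1 : ∑ s : {s : Finset (Fin n) // s.Nonempty},
      (if Inc n N a (.inl s) then (1 : ℝ) else 0) * (if Inc n N b (.inl s) then 1 else 0) =
      ((Finset.Icc ({a, b} : Finset (Fin n)) Finset.univ).card : ℝ) := by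
    have h0 : ∀ s : {s : Finset (Fin n) // s.Nonempty},
        (if Inc n N a (.inl s) then (1 : ℝ) else 0) * (if Inc n N b (.inl s) then 1 else 0) =
        if (a ∈ s.1 ∧ b ∈ s.1) then (1 : ℝ) else 0 := by
      intro s
      have e1 : Inc n N a (.inl s) ↔ a ∈ s.1 := Iff.rfl
      have e2 : Inc n N b (.inl s) ↔ b ∈ s.1 := Iff.rfl
      by_cases ha : a ∈ s.1 <;> by_cases hb : b ∈ s.1 <;> simp [e1, e2, ha, hb]
    rw [Finset.sum_congr rfl fun s _ => h0 s, ← Finset.sum_filter, Finset.sum_const, nsmul_one]
    congr 1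
    refine Finset.card_bij (fun s _ => s.1) ?_ ?_ ?_
    · intro s hs
      rw [Finset.mem_filter] at hs
      rw [Finset.mem_Icc]
      refine ⟨?_, Finset.subset_univ _⟩
      intro c hc
      rw [Finset.mem_insert, Finset.mem_singleton] at hc
      rcases hc with rfl | rfl
      · exact hs.2.1
      · exact hs.2.2
    · intro s _ t _ h
      exact Subtype.ext h
    · intro t ht
      rw [Finset.mem_Icc] at ht
      have ha : a ∈ t := ht.1 (by simp)
      have hb : b ∈ t := ht.1 (by simp)
      exact ⟨⟨t, ⟨a, ha⟩⟩, by simp [ha, hb], rfl⟩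
  have h2 : ∑ p : Fin N × Fin n,
      (if Inc n N a (.inr p) then (1 : ℝ) else 0) * (if Inc n N b (.inr p) then 1 else 0) =
      if a = b then (N : ℝ) else 0 := by
    have h0 : ∀ p : Fin N × Fin n,
        (if Inc n N a (.inr p) then (1 : ℝ) else 0) * (if Inc n N b (.inr p) then 1 else 0) =
        if p.2 = a then (if a = b then (1 : ℝ) else 0) else 0 := by
      intro p
      have e1 : Inc n N a (.inr p) ↔ a = p.2 := Iff.rfl
      have e2 : Inc n N b (.inr p) ↔ b = p.2 := Iff.rfl
      by_cases ha : p.2 = a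
      · subst ha
        by_cases hb : p.2 = b
        · simp [e1, e2, hb]
        · simp [e1, e2, hb, Ne.symm hb]
      · simp [e1, ha, Ne.symm ha]
    rw [Finset.sum_congr rfl fun p _ => h0 p, Fintype.sum_prod_type]
    simp
  rw [h1, h2, Finset.card_Icc_finset (Finset.subset_univ _), Finset.card_univ, Fintype.card_fin]
  have hNR : (N : ℝ) + 2 * 2 ^ (n - 2) = (2 ^ (n - 2)) ^ 2 := by exact_mod_cast hN
  by_cases hab : a = b
  · subst hab
    have hc : ({a, a} : Finset (Fin n)).card = 1 := by simp
    rw [hc, if_pos rfl, if_pos rfl, ← hNR]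
    have : n - 1 = (n - 2) + 1 := by omega
    rw [this]
    push_cast
    ring
  · rw [Finset.card_pair hab, if_neg hab, if_neg hab]
    push_cast
    ring

/-- Negative answer to Q1 and Q2: the number of distinct vertex degrees of `3`-extremal split
graphs is unbounded. -/
theorem result : ∀ c : ℕ, ∃ (V : Type) (_ : Fintype V) (G : SimpleGraph V)
    (_ : DecidableRel G.Adj), IsThreeExtremalSplit G ∧
      c < (Set.range fun v => G.degree v).ncard := by
  classical
  intro c
  obtain ⟨n, hn4, hnc⟩ : ∃ n : ℕ, 4 ≤ n ∧ c < n := ⟨c + 4, by omega, by omega⟩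
  have hL : 4 ≤ 2 ^ (n - 2) := by
    calc 4 = 2 ^ 2 := by norm_num
      _ ≤ 2 ^ (n - 2) := Nat.pow_le_pow_right (by norm_num) (by omega)
  obtain ⟨N, hN⟩ : ∃ N : ℕ, N + 2 * 2 ^ (n - 2) = (2 ^ (n - 2)) ^ 2 :=
    ⟨(2 ^ (n - 2)) ^ 2 - 2 * 2 ^ (n - 2), Nat.sub_add_cancel (by nlinarith)⟩
  have hNpos : 0 < N := by nlinarith
  have hLR : (4 : ℝ) ≤ 2 ^ (n - 2) := by exact_mod_cast hL
  set i0 : Fin n := ⟨0, by omega⟩ with hi0
  set i1 : Fin n := ⟨1, by omega⟩ with hi1
  have hi01 : i0 ≠ i1 := by
    intro h; rw [hi0, hi1, Fin.mk.injEq] at h; omega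
  have hne : ∀ s : St n N, ∃ a, Inc n N a s := by
    rintro (s | p)
    · exact s.2
    · exact ⟨p.2, rfl⟩
  have hnonempty : Nonempty (Fin n) := ⟨i0⟩
  obtain ⟨hconn, hle⟩ := spl_conn (Inc n N) hne hnonempty
  refine ⟨Fin n ⊕ St n N, inferInstance, spl (Inc n N), fun a b => Classical.propDecidable _,
    ⟨⟨Set.range Sum.inl, ?_, ?_⟩, hconn, hle, ?_, ?_⟩, ?_⟩
  · rintro _ ⟨a, rfl⟩ _ ⟨b, rfl⟩ h
    exact fun h' => h (congrArg _ h')
  · rintro (a | s) hu (b | t) hv h
    · exact hu ⟨a, rfl⟩
    · exact hu ⟨a, rfl⟩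
    · exact hv ⟨b, rfl⟩
    · exact h
  · refine ⟨_, _, spl_dist3 (Inc n N) hne hnonempty (.inl ⟨{i0}, by simp⟩) (.inl ⟨{i1}, by simp⟩)
      ?_ ?_⟩
    · intro h
      have h2 := Sum.inl_injective h
      have h3 : ({i0} : Finset (Fin n)) = {i1} := congrArg Subtype.val h2
      exact hi01 (Finset.singleton_injective h3)
    · intro a ha ha'
      have h1 : a ∈ ({i0} : Finset (Fin n)) := ha
      have h2 : a ∈ ({i1} : Finset (Fin n)) := ha'
      rw [Finset.mem_singleton] at h1 h2
      exact hi01 (h1.symm.trans h2)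
  · rw [eigs_spl (Inc n N) (2 ^ (n - 2)) (by linarith)
      (fun a b => by convert inc_gram n hn4 N hN a b) ⟨i0, i1, hi01⟩
      ⟨.inl ⟨{i0}, by simp⟩, .inr (⟨0, hNpos⟩, i0), by simp, fun a => ?_⟩]
    · rw [Fintype.card_fin]
      have hn0 : (0 : ℝ) ≤ n := Nat.cast_nonneg n
      have hn4' : (4 : ℝ) ≤ n := by exact_mod_cast hn4
      have : ({0, -(2 : ℝ) ^ (n - 2), 2 ^ (n - 2) - 1, (n : ℝ) + 2 ^ (n - 2) - 1} : Set ℝ) =
          ↑({0, -(2 : ℝ) ^ (n - 2), 2 ^ (n - 2) - 1, (n : ℝ) + 2 ^ (n - 2) - 1} : Finset ℝ) := by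
        simp
      rw [this, Set.ncard_coe_finset, Finset.card_insert_of_notMem, Finset.card_insert_of_notMem,
        Finset.card_insert_of_notMem, Finset.card_singleton]
      · rw [Finset.mem_singleton]; intro h; linarith
      · rw [Finset.mem_insert, Finset.mem_singleton]
        rintro (h | h) <;> linarith
      · rw [Finset.mem_insert, Finset.mem_insert, Finset.mem_singleton]
        rintro (h | h | h) <;> linarith
    · have e1 : Inc n N a (.inl ⟨{i0}, by simp⟩) ↔ a ∈ ({i0} : Finset (Fin n)) := Iff.rfl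
      have e2 : Inc n N a (.inr (⟨0, hNpos⟩, i0)) ↔ a = i0 := Iff.rfl
      rw [e1, e2, Finset.mem_singleton]
  · have hsub : (↑(Finset.Icc 1 n) : Set ℕ) ⊆
        Set.range fun v => @SimpleGraph.degree _ (spl (Inc n N)) v
          (@SimpleGraph.neighborSetFintype _ (spl (Inc n N)) _
            (fun a b => Classical.propDecidable _) v) := by
      intro k hk
      rw [Finset.coe_Icc, Set.mem_Icc] at hk
      obtain ⟨s, -, hs⟩ := Finset.exists_subset_card_eq (s := (Finset.univ : Finset (Fin n)))
        (n := k) (by rw [Finset.card_univ, Fintype.card_fin]; exact hk.2)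
      have hsne : s.Nonempty := Finset.card_pos.1 (by omega)
      refine ⟨.inr (.inl ⟨s, hsne⟩), ?_⟩
      change SimpleGraph.degree _ _ = k
      rw [← SimpleGraph.card_neighborFinset_eq_degree]
      have : (spl (Inc n N)).neighborFinset (.inr (.inl ⟨s, hsne⟩)) =
          s.map ⟨Sum.inl, Sum.inl_injective⟩ := by
        ext u
        rw [SimpleGraph.mem_neighborFinset, Finset.mem_map]
        rcases u with a | t
        · constructor
          · intro h; exact ⟨a, h, rfl⟩
          · rintro ⟨b, hb, hab⟩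
            have : b = a := Sum.inl_injective hab
            subst this
            exact hb
        · constructor
          · intro h; exact absurd h (fun h => h)
          · rintro ⟨b, hb, hab⟩
            exact absurd hab (by simp)
      rw [← hs, ← Finset.card_map ⟨(Sum.inl : Fin n → Fin n ⊕ St n N), Sum.inl_injective⟩]
      convert congrArg Finset.card this using 1
    have := Set.ncard_le_ncard hsub (Set.toFinite _)
    rw [Set.ncard_coe_finset, Nat.card_Icc] at this
    omega

end Pool.Agent.Results.MP_6460d1_co.UnboundedDegrees
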